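import Mathlib
import Pool.Agent.Lib.helper6.Gamma

set_option autoImplicit false

namespace Pool.Agent.Results.MP_b9dfd5_co.TwoCycle

open Pool.Agent.Lib.helper6.Gamma

/-- `S` is a dominating set of `G`. -/
def IsDom {n : ℕ} (G : SimpleGraph (Fin n)) (S : Finset (Fin n)) : Prop :=
  ∀ v, v ∈ S ∨ ∃ u ∈ S, G.Adj u v

/-- `S` is a dominating set of minimum size. -/
def IsGammaSet {n : ℕ} (G : SimpleGraph (Fin n)) (S : Finset (Fin n)) : Prop :=
  IsDom G S ∧ ∀ T, IsDom G T → S.card ≤ T.card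

/-- The gamma-graph of `G` (token sliding adjacency). -/
def gammaGraph {n : ℕ} (G : SimpleGraph (Fin n)) : SimpleGraph {S // IsGammaSet G S} where
  Adj S T := ∃ u v, u ∈ S.1 ∧ v ∉ S.1 ∧ G.Adj u v ∧ T.1 = insert v (S.1.erase u)
  symm := ⟨by
    rintro S T ⟨u, v, hu, hv, huv, h⟩
    refine ⟨v, u, by rw [h]; simp, by rw [h]; simp [huv.ne], huv.symm, ?_⟩
    rw [h, Finset.erase_insert (by simp [hv]), Finset.insert_erase hu]⟩
  loopless := ⟨by
    rintro S ⟨u, v, _, hv, _, h⟩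
    exact hv (by rw [h]; simp)⟩

theorem result : ∃ (n m : ℕ) (G : SimpleGraph (Fin n)) (H : SimpleGraph (Fin m)),
    IsEmpty (G ≃g H) ∧ Nonempty (gammaGraph G ≃g H) ∧ Nonempty (gammaGraph H ≃g G) := by
  obtain ⟨e0, h0⟩ := step01
  obtain ⟨e1, h1⟩ := step10
  refine ⟨15, 15, G0, G1, ⟨fun φ => not_iso.elim φ.symm⟩, ⟨?_⟩, ⟨?_⟩⟩
  · exact (show G1 ≃g gammaGraph G0 from ⟨e0, fun {a b} => (h0 a b).symm⟩).symm
  · exact (show G0 ≃g gammaGraph G1 from ⟨e1, fun {a b} => (h1 a b).symm⟩).symm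

end Pool.Agent.Results.MP_b9dfd5_co.TwoCycle
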